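import Pool.Agent.Helper50_PN.Stmts

/-!
# Squad PN, module EXI: existence by linear algebra
-/

set_option autoImplicit false

universe u

namespace Pool.Agent.PN.H27

open MvPolynomial

/-! ### Weights -/

section
variable {V : Type*} {R : Type*} [CommSemiring R]

theorem wt_add (w : V → ℕ) (s t : V →₀ ℕ) : (s + t).sum (fun v e => e * w v) =
    s.sum (fun v e => e * w v) + t.sum (fun v e => e * w v) := by
  classical
  exact Finsupp.sum_add_index' (by simp) (by intro a b c; ring)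

theorem deg_mono {w : V → ℕ} {n m : ℕ} (h : n ≤ m) {P : MvPolynomial V R} (hP : Deg w n P) :
    Deg w m P := fun s hs => (hP s hs).trans h

theorem deg_add {w : V → ℕ} {n : ℕ} {P Q : MvPolynomial V R} (hP : Deg w n P) (hQ : Deg w n Q) :
    Deg w n (P + Q) := by
  classical
  intro s hs
  rcases Finset.mem_union.1 (support_add hs) with h | h
  · exact hP s h
  · exact hQ s h

theorem deg_sum {w : V → ℕ} {n : ℕ} {ι : Type*} (t : Finset ι) (f : ι → MvPolynomial V R)
    (h : ∀ i ∈ t, Deg w n (f i)) : Deg w n (∑ i ∈ t, f i) := by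
  classical
  induction t using Finset.induction_on with
  | empty =>
    rw [Finset.sum_empty]
    intro s hs
    simp at hs
  | insert a t ha ih =>
    rw [Finset.sum_insert ha]
    exact deg_add (h a (Finset.mem_insert_self a t))
      (ih fun i hi => h i (Finset.mem_insert_of_mem hi))

theorem deg_mul {w : V → ℕ} {n m : ℕ} {P Q : MvPolynomial V R} (hP : Deg w n P)
    (hQ : Deg w m Q) : Deg w (n + m) (P * Q) := by
  classical
  intro s hs
  obtain ⟨a, ha, b, hb, rfl⟩ := Finset.mem_add.1 (support_mul P Q hs)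
  rw [wt_add]
  exact Nat.add_le_add (hP a ha) (hQ b hb)

end

/-! ### Coefficients of jet monomials -/

section
variable {n N k : ℕ}

/-- the coefficient of a jet monomial -/
noncomputable def ct (t : Fin n × Fin (k + 1) →₀ ℕ) (Q : Pol n N k) :
    MvPolynomial (Fin n × Fin N) ℤ :=
  coeff t (sumAlgEquiv ℤ (Fin n × Fin (k + 1)) (Fin n × Fin N) (rename Sum.swap Q))

theorem coeff_ct (t : Fin n × Fin (k + 1) →₀ ℕ) (t' : Fin n × Fin N →₀ ℕ) (Q : Pol n N k) :
    coeff t' (ct t Q) = coeff (Finsupp.sumElim t' t) Q := by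
  have h1 : Finsupp.mapDomain Sum.swap (Finsupp.sumElim t' t) = Finsupp.sumElim t t' := by
    refine Finsupp.ext fun v => ?_
    rcases v with v | v
    · have h := Finsupp.mapDomain_apply (Equiv.sumComm (Fin n × Fin N)
        (Fin n × Fin (k + 1))).injective (Finsupp.sumElim t' t) (Sum.inr v)
      exact h
    · have h := Finsupp.mapDomain_apply (Equiv.sumComm (Fin n × Fin N)
        (Fin n × Fin (k + 1))).injective (Finsupp.sumElim t' t) (Sum.inl v)
      exact h
  have h2 := coeff_rename_mapDomain Sum.swap (Equiv.sumComm (Fin n × Fin N)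
    (Fin n × Fin (k + 1))).injective Q (Finsupp.sumElim t' t)
  rw [h1] at h2
  rw [← h2]
  simp [ct, sumAlgEquiv, coeff, AddMonoidAlgebra.curryAlgEquiv, AddMonoidAlgebra.curryRingEquiv,
    AddMonoidAlgebra.curryAddEquiv]

/-- the inclusion of the parameters -/
noncomputable def ren (n N k : ℕ) : MvPolynomial (Fin n × Fin N) ℤ →ₐ[ℤ] Pol n N k :=
  rename Sum.inl

theorem ct_ren_mul (t : Fin n × Fin (k + 1) →₀ ℕ) (c : MvPolynomial (Fin n × Fin N) ℤ)
    (Q : Pol n N k) : ct t (ren n N k c * Q) = c * ct t Q := by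
  unfold ct ren
  have h := AlgHom.congr_fun (sumAlgEquiv_comp_rename_inr (R := ℤ) (S₁ := Fin n × Fin (k + 1))
    (S₂ := Fin n × Fin N)) c
  have h' : sumAlgEquiv ℤ (Fin n × Fin (k + 1)) (Fin n × Fin N) (rename Sum.inr c) = C c := h
  have h2 : rename (Sum.swap : Sig n N k → _) (rename Sum.inl c) =
      (rename Sum.inr c : MvPolynomial ((Fin n × Fin (k + 1)) ⊕ (Fin n × Fin N)) ℤ) := by
    rw [rename_rename]
    rfl
  rw [map_mul, h2, map_mul, h', coeff_C_mul]

theorem ct_sum {ι : Type*} (s : Finset ι) (t : Fin n × Fin (k + 1) →₀ ℕ) (f : ι → Pol n N k) :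
    ct t (∑ i ∈ s, f i) = ∑ i ∈ s, ct t (f i) := by
  unfold ct
  rw [map_sum, map_sum, coeff_sum]

theorem exists_of_ct_ne {t : Fin n × Fin (k + 1) →₀ ℕ} {Q : Pol n N k} (h : ct t Q ≠ 0) :
    ∃ s ∈ Q.support, ∀ j, s (Sum.inr j) = t j := by
  obtain ⟨t', ht'⟩ := MvPolynomial.ne_zero_iff.mp h
  rw [coeff_ct] at ht'
  exact ⟨_, mem_support_iff.mpr ht', fun j => by simp⟩

theorem exists_ct_ne {Q : Pol n N k} {s : Sig n N k →₀ ℕ} (h : s ∈ Q.support) :
    ∃ t : Fin n × Fin (k + 1) →₀ ℕ, (∀ j, s (Sum.inr j) = t j) ∧ ct t Q ≠ 0 := by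
  obtain ⟨t, ht⟩ : ∃ t, t = Finsupp.sumFinsuppAddEquivProdFinsupp s := ⟨_, rfl⟩
  have hs : s = Finsupp.sumElim t.1 t.2 := by
    rw [ht]
    exact (Finsupp.sumFinsuppAddEquivProdFinsupp.symm_apply_apply s).symm
  refine ⟨t.2, fun j => by rw [hs]; simp, fun h0 => ?_⟩
  have h1 := coeff_ct t.2 t.1 Q
  rw [h0, coeff_zero, ← hs] at h1
  exact mem_support_iff.mp h h1.symm

theorem pow_dvd {V : Type*} (v : V) (n : ℕ) (Q : MvPolynomial V ℤ)
    (h : ∀ s ∈ Q.support, n ≤ s v) : X v ^ n ∣ Q := by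
  rw [← support_sum_monomial_coeff Q]
  refine Finset.dvd_sum fun s hs => ?_
  rw [X_pow_eq_monomial, monomial_dvd_monomial]
  exact ⟨Or.inr (Finsupp.single_le_iff.mpr (h s hs)), one_dvd _⟩

theorem deg_ren (w : Sig n N k → ℕ) (hw : ∀ q, w (Sum.inl q) = 0)
    (c : MvPolynomial (Fin n × Fin N) ℤ) : Deg w 0 (ren n N k c) := by
  classical
  intro s hs
  unfold ren at hs
  obtain ⟨t, rfl, _⟩ : ∃ t : Fin n × Fin N →₀ ℕ, Finsupp.mapDomain Sum.inl t = s ∧
      coeff t c ≠ 0 := coeff_rename_ne_zero _ _ _ (mem_support_iff.mp hs)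
  rw [Finsupp.sum_mapDomain_index (by simp) (by intros; ring)]
  simp [hw]

/-! ### The substitution -/

theorem psi_ren (I : Finset (Fin n)) (i₀ : Fin n) (j : Fin n → Fin N)
    (c : MvPolynomial (Fin n × Fin N) ℤ) : psi I i₀ j (ren n N k c) = ren n N k c := by
  have h : (psi I i₀ j).comp (ren n N k) = ren n N k := by
    refine algHom_ext fun v => ?_
    simp [psi, ren]
  exact AlgHom.congr_fun h c

theorem psi_congr (I : Finset (Fin n)) (i₀ : Fin n) (j j' : Fin n → Fin N) (h0 : i₀ ∈ I)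
    (h : ∀ i ∈ I, j i = j' i) : (psi I i₀ j : Pol n N k →ₐ[ℤ] Pol n N k) = psi I i₀ j' := by
  refine algHom_ext fun v => ?_
  unfold psi
  rw [aeval_X, aeval_X]
  rcases v with v | v
  · rfl
  · rw [Sum.elim_inr, Sum.elim_inr, h i₀ h0]
    by_cases h1 : v.1 = i₀
    · rw [if_pos h1, if_pos h1]
    · rw [if_neg h1, if_neg h1]
      by_cases h2 : v.1 ∈ I
      · rw [if_pos h2, if_pos h2, h _ h2]
      · rw [if_neg h2, if_neg h2]

theorem psi_ff (I : Finset (Fin n)) (i₀ : Fin n) (j : Fin n → Fin N) (h0 : i₀ ∈ I) (l : Fin n)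
    (hl : l ∉ I) : psi I i₀ j (ff l : Pol n N k) = ff l := by
  have h1 : l ≠ i₀ := fun h => hl (h ▸ h0)
  unfold ff
  rw [map_prod]
  refine Finset.prod_congr rfl fun q _ => ?_
  rw [map_sub]
  unfold psi
  rw [aeval_X, aeval_X, Sum.elim_inl, Sum.elim_inr, if_neg h1, if_neg hl]

theorem blk_univ (m : ℕ) (I : Finset (Fin n)) (b : Fin n × Fin (k + 1) → ℕ) :
    (blk m Finset.univ b : Pol n N k) = blk m I b * ∏ l ∈ Iᶜ, ff l ^ (m - Aof b l) := by
  classical
  unfold blk
  rw [mul_assoc, Finset.prod_mul_prod_compl I fun l => (ff l : Pol n N k) ^ (m - Aof b l)]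

theorem psi_blk (m : ℕ) (I : Finset (Fin n)) (i₀ : Fin n) (j : Fin n → Fin N) (h0 : i₀ ∈ I)
    (b : Fin n × Fin (k + 1) → ℕ) : psi I i₀ j (blk m Finset.univ b : Pol n N k) =
      psi I i₀ j (blk m I b) * ∏ l ∈ Iᶜ, ff l ^ (m - Aof b l) := by
  rw [blk_univ m I b, map_mul, map_prod]
  refine congrArg₂ (· * ·) rfl (Finset.prod_congr rfl fun l hl => ?_)
  rw [map_pow, psi_ff I i₀ j h0 l (Finset.mem_compl.mp hl)]

/-- the outer jet degrees -/
def tau (I : Finset (Fin n)) (b : Fin n × Fin (k + 1) → ℕ) : Fin n → ℕ :=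
  fun l => if l ∈ I then 0 else Aof b l

theorem tau_eq_iff (I : Finset (Fin n)) (b b' : Fin n × Fin (k + 1) → ℕ) :
    tau I b = tau I b' ↔ ∀ l ∉ I, Aof b l = Aof b' l := by
  constructor
  · intro h l hl
    have h1 := congrFun h l
    unfold tau at h1
    rwa [if_neg hl, if_neg hl] at h1
  · intro h
    funext l
    unfold tau
    by_cases hl : l ∈ I
    · rw [if_pos hl, if_pos hl]
    · rw [if_neg hl, if_neg hl, h l hl]

end

/-! ### The linear system -/

theorem exists_ker {R : Type*} [CommRing R] [Nontrivial R] {E U : Type*} [Fintype E] [Fintype U]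
    (Mx : Matrix E U R) (h : Fintype.card E < Fintype.card U) :
    ∃ c : U → R, c ≠ 0 ∧ Mx.mulVec c = 0 := by
  by_contra hcon
  have hinj : Function.Injective Mx.mulVecLin := by
    rw [← LinearMap.ker_eq_bot, LinearMap.ker_eq_bot']
    intro c hc
    by_contra h0
    exact hcon ⟨c, h0, hc⟩
  exact absurd h (not_lt.mpr (card_le_of_injective R Mx.mulVecLin hinj))

/-- the first element of a set with at least two elements -/
noncomputable def mi {n : ℕ} (I : {I : Finset (Fin n) // 2 ≤ I.card}) : Fin n :=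
  I.1.min' (Finset.card_pos.mp (by have := I.2; omega))

theorem mi_mem {n : ℕ} (I : {I : Finset (Fin n) // 2 ≤ I.card}) : mi I ∈ I.1 :=
  Finset.min'_mem _ _

/-- the equations -/
abbrev ET (n N k m δ B : ℕ) : Type :=
  Σ I : {I : Finset (Fin n) // 2 ≤ I.card}, (I.1 → Fin N) × CS n N k m δ B I.1 (mi I)

open Classical in
/-- extension of a function on `I` -/
noncomputable def ext {n N : ℕ} (q : Fin N) (I : Finset (Fin n)) (j : I → Fin N) :
    Fin n → Fin N := fun i => if h : i ∈ I then j ⟨i, h⟩ else q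

open Classical in
/-- the matrix of the system -/
noncomputable def Mat {n N : ℕ} (q : Fin N) (k m δ B : ℕ) :
    Matrix (ET n N k m δ B) (US n N k m δ B) (MvPolynomial (Fin n × Fin N) ℤ) :=
  fun e b => if tau e.1.1 b.1 = tau e.1.1 e.2.2.1 then
    ct (Finsupp.equivFunOnFinite.symm e.2.2.1)
      (psi (k := k) e.1.1 (mi e.1) (ext q e.1.1 e.2.1) (blk m e.1.1 b.1)) else 0

theorem exi_aux (blk' : BlkStmt) (exp : ExpStmt) (psi' : PsiStmt.{u}) {n N k m δ B : ℕ}
    (hN : 1 ≤ N) (hδ : δ ≤ m) (hB : 1 ≤ B) (hBN : B ≤ N * (m - δ))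
    (hcard : Fintype.card (ET n N k m δ B) < (US n N k m δ B).card) :
    ∃ P : Pol n N k, P ≠ 0 ∧ Cls.{u} (m - δ) (N * (m - δ) - B + m) m P := by
  classical
  obtain ⟨q⟩ : Nonempty (Fin N) := ⟨⟨0, hN⟩⟩
  obtain ⟨c, hc0, hc⟩ := exists_ker (Mat (n := n) q k m δ B) (by rwa [Fintype.card_coe])
  obtain ⟨c', hc'⟩ : ∃ c' : (Fin n × Fin (k + 1) → ℕ) → MvPolynomial (Fin n × Fin N) ℤ,
      ∀ b : US n N k m δ B, c' b.1 = c b :=
    ⟨fun b => if h : b ∈ US n N k m δ B then c ⟨b, h⟩ else 0, fun b => by simp⟩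
  obtain ⟨hdeg, hind⟩ := blk' n N k m δ B hδ hB hBN
  obtain ⟨P, hP⟩ : ∃ P : Pol n N k, P = ∑ b ∈ US n N k m δ B,
      ren n N k (c' b) * blk m Finset.univ b := ⟨_, rfl⟩
  refine ⟨P, ?_, ?_, ?_, ?_⟩
  · intro h0
    apply hc0
    funext b
    rw [← hc' b, Pi.zero_apply]
    exact hind c' (by rw [← h0, hP]; rfl) b.1 b.2
  · intro l
    rw [hP]
    refine deg_sum _ _ fun b hb => ?_
    have h1 := deg_mul (deg_ren (dw n N k l) (fun _ => rfl) (c' b)) ((hdeg b hb).1 l)
    rwa [zero_add] at h1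
  · rw [hP]
    refine deg_sum _ _ fun b hb => ?_
    have h1 := deg_mul (deg_ren (ww n N k) (fun _ => rfl) (c' b)) (hdeg b hb).2
    rwa [zero_add] at h1
  · refine psi' n N k (m - δ) P fun I i₀ j hi₀ hmin hI => ?_
    obtain ⟨I', rfl⟩ : ∃ I' : {I : Finset (Fin n) // 2 ≤ I.card}, I'.1 = I := ⟨⟨I, hI⟩, rfl⟩
    obtain rfl : i₀ = mi I' :=
      le_antisymm (hmin _ (mi_mem I')) (Finset.min'_le _ _ hi₀)
    have h1 : psi I'.1 (mi I') j P = ∑ b ∈ US n N k m δ B, ren n N k (c' b) *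
        (psi I'.1 (mi I') j (blk m I'.1 b) *
          ∏ l ∈ I'.1ᶜ, ff l ^ (m - tau I'.1 b l)) := by
      rw [hP, map_sum]
      refine Finset.sum_congr rfl fun b _ => ?_
      rw [map_mul, psi_ren, psi_blk m I'.1 (mi I') j hi₀ b]
      refine congrArg₂ (· * ·) rfl (congrArg₂ (· * ·) rfl
        (Finset.prod_congr rfl fun l hl => ?_))
      unfold tau
      rw [if_neg (Finset.mem_compl.mp hl)]
    rw [h1, ← Finset.sum_fiberwise_of_maps_to (s := US n N k m δ B)
      (t := (US n N k m δ B).image (tau I'.1)) (g := tau I'.1)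
      (fun b hb => Finset.mem_image_of_mem _ hb)]
    refine Finset.dvd_sum fun t _ => ?_
    have h2 : ∑ b ∈ (US n N k m δ B).filter (fun b => tau I'.1 b = t), ren n N k (c' b) *
        (psi I'.1 (mi I') j (blk m I'.1 b) * ∏ l ∈ I'.1ᶜ, ff l ^ (m - tau I'.1 b l)) =
        (∑ b ∈ (US n N k m δ B).filter (fun b => tau I'.1 b = t), ren n N k (c' b) *
        psi I'.1 (mi I') j (blk m I'.1 b)) * ∏ l ∈ I'.1ᶜ, ff l ^ (m - t l) := by
      rw [Finset.sum_mul]
      refine Finset.sum_congr rfl fun b hb => ?_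
      rw [(Finset.mem_filter.mp hb).2, mul_assoc]
    rw [h2]
    refine Dvd.dvd.mul_right (pow_dvd _ _ _ fun s hs => ?_) _
    by_contra hlt
    rw [not_le] at hlt
    obtain ⟨r, hr, hct⟩ := exists_ct_ne hs
    apply hct
    rw [ct_sum]
    have h3 : ∀ b, ct r (ren n N k (c' b) * psi I'.1 (mi I') j (blk m I'.1 b)) =
        c' b * ct r (psi I'.1 (mi I') j (blk m I'.1 b)) := fun b => ct_ren_mul _ _ _
    rw [Finset.sum_congr rfl fun b _ => h3 b]
    by_cases hall : ∀ b ∈ (US n N k m δ B).filter (fun b => tau I'.1 b = t),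
        ct r (psi I'.1 (mi I') j (blk m I'.1 b)) = 0
    · exact Finset.sum_eq_zero fun b hb => by rw [hall b hb, mul_zero]
    · push Not at hall
      obtain ⟨b, hb, hbr⟩ := hall
      obtain ⟨hb1, hb2⟩ := Finset.mem_filter.mp hb
      obtain ⟨s', hs', hsr⟩ := exists_of_ct_ne hbr
      have hlt' : s' (Sum.inr (mi I', 0)) < I'.1.card * (m - δ) := by
        rw [hsr, ← hr]
        exact hlt
      obtain ⟨hCS, hA⟩ := exp n N k m δ B I'.1 (mi I') j hi₀ hI hδ hB b hb1 s' hs' hlt'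
      have hfun : (fun p => s' (Sum.inr p)) = ⇑r := funext fun p => hsr p
      rw [hfun] at hCS hA
      have h4 := congrFun hc ⟨I', (fun i => j i.1, ⟨⇑r, hCS⟩)⟩
      rw [Matrix.mulVec, dotProduct, Pi.zero_apply] at h4
      rw [← h4, Finset.sum_filter, ← Finset.sum_coe_sort (US n N k m δ B)]
      refine Finset.sum_congr rfl fun b' _ => ?_
      have h5 : tau I'.1 (⇑r) = t := by
        rw [← hb2, tau_eq_iff]
        exact hA
      have h6 : (psi I'.1 (mi I') (ext q I'.1 fun i => j i.1) : Pol n N k →ₐ[ℤ] Pol n N k) =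
          psi I'.1 (mi I') j := by
        refine psi_congr _ _ _ _ hi₀ fun i hi => ?_
        unfold ext
        rw [dif_pos hi]
      have h7 : Finsupp.equivFunOnFinite.symm (⇑r) = r := by
        refine Finsupp.ext fun v => ?_
        rw [Finsupp.equivFunOnFinite_symm_apply_apply]
      unfold Mat
      simp only
      rw [h5, h6, h7, hc' b']
      by_cases h8 : tau I'.1 b'.1 = t
      · rw [if_pos h8, if_pos h8, mul_comm]
      · rw [if_neg h8, if_neg h8, zero_mul]

theorem card_ET (n N k m δ B : ℕ) : Fintype.card (ET n N k m δ B) =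
    ∑ I : {I : Finset (Fin n) // 2 ≤ I.card},
      N ^ I.1.card * (CS n N k m δ B I.1 (mi I)).card := by
  rw [Fintype.card_sigma]
  refine Finset.sum_congr rfl fun I _ => ?_
  rw [Fintype.card_prod, Fintype.card_fun, Fintype.card_fin, Fintype.card_coe, Fintype.card_coe]

theorem pow_sub_bound (N B : ℕ) (h : B ≤ N) (n : ℕ) :
    N ^ (n + 1) ≤ (N - B) ^ (n + 1) + (n + 1) * B * N ^ n := by
  induction n with
  | zero =>
    simp only [zero_add, pow_one, pow_zero, mul_one, one_mul]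
    omega
  | succ n ih =>
    have h1 : (N - B) ^ (n + 1) ≤ N ^ (n + 1) := Nat.pow_le_pow_left (Nat.sub_le N B) _
    have h2 : N * (N - B) ^ (n + 1) = (N - B) ^ (n + 1 + 1) + B * (N - B) ^ (n + 1) := by
      have h3 : N = (N - B) + B := by omega
      calc N * (N - B) ^ (n + 1) = ((N - B) + B) * (N - B) ^ (n + 1) := by rw [← h3]
        _ = _ := by ring
    calc N ^ (n + 1 + 1) = N * N ^ (n + 1) := by ring
      _ ≤ N * ((N - B) ^ (n + 1) + (n + 1) * B * N ^ n) := Nat.mul_le_mul_left _ ih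
      _ = N * (N - B) ^ (n + 1) + (n + 1) * B * N ^ (n + 1) := by ring
      _ = (N - B) ^ (n + 1 + 1) + B * (N - B) ^ (n + 1) + (n + 1) * B * N ^ (n + 1) := by rw [h2]
      _ ≤ (N - B) ^ (n + 1 + 1) + B * N ^ (n + 1) + (n + 1) * B * N ^ (n + 1) := by
        have := Nat.mul_le_mul_left B h1
        omega
      _ = _ := by ring

/-- EXI -/
theorem exi (num : NumStmt) (cnu : CnuStmt) (cnc : CncStmt) (blk' : BlkStmt) (exp : ExpStmt)
    (psi' : PsiStmt.{u}) : ExiStmt.{u} := by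
  classical
  intro n hn
  obtain ⟨k, m, δ, hk, hδ, hnum⟩ := num n hn
  refine ⟨k, m, m - δ, hk, by omega, fun B₀ => ?_⟩
  obtain ⟨B, hB⟩ : ∃ B, B = B₀ + m := ⟨_, rfl⟩
  refine ⟨B + n * B * uu n k m δ + 1, fun N hN => ?_⟩
  have hBN0 : B ≤ N := by omega
  have hmd : 1 ≤ m - δ := by omega
  have hBN : B ≤ N * (m - δ) := hBN0.trans (Nat.le_mul_of_pos_right N hmd)
  refine ⟨by omega, ?_⟩
  have hd : N * (m - δ) - B + m = N * (m - δ) - B₀ := by omega
  rw [← hd]
  refine exi_aux blk' exp psi' (by omega) hδ.le (by omega) hBN ?_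
  obtain ⟨n', rfl⟩ : ∃ n', n = n' + 1 := ⟨n - 1, by omega⟩
  have hlow := cnu (n' + 1) N k m δ B (by omega) hBN0
  refine lt_of_lt_of_le ?_ hlow
  rw [card_ET]
  have hup : ∑ I : {I : Finset (Fin (n' + 1)) // 2 ≤ I.card},
      N ^ I.1.card * (CS (n' + 1) N k m δ B I.1 (mi I)).card ≤
      N ^ (n' + 1) * ∑ I ∈ (Finset.univ : Finset (Finset (Fin (n' + 1)))).filter
        (fun I => 2 ≤ I.card), (if h : I.Nonempty then cc (n' + 1) k m δ I (I.min' h) else 0) := by
    rw [Finset.sum_subtype (p := fun I : Finset (Fin (n' + 1)) => 2 ≤ I.card) _ (by simp),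
      Finset.mul_sum]
    refine Finset.sum_le_sum fun I _ => ?_
    have hne : I.1.Nonempty := Finset.card_pos.mp (by have := I.2; omega)
    rw [dif_pos hne]
    have h1 := cnc (n' + 1) N k m δ B I.1 (mi I) (by omega) (mi_mem I) hδ.le
    have h2 : I.1.card ≤ n' + 1 := by
      have := Finset.card_le_univ I.1
      rwa [Fintype.card_fin] at this
    have h3 : N ^ (n' + 1) = N ^ I.1.card * N ^ (n' + 1 - I.1.card) := by
      rw [← pow_add]
      congr 1
      omega
    rw [h3, mul_assoc]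
    exact Nat.mul_le_mul_left _ h1
  refine lt_of_le_of_lt hup ?_
  obtain ⟨Cs, hCs⟩ : ∃ Cs, Cs = ∑ I ∈ (Finset.univ : Finset (Finset (Fin (n' + 1)))).filter
        (fun I => 2 ≤ I.card), (if h : I.Nonempty then cc (n' + 1) k m δ I (I.min' h) else 0) :=
    ⟨_, rfl⟩
  rw [← hCs] at hnum ⊢
  have hp := pow_sub_bound N B hBN0 n'
  have hN2 : (n' + 1) * B * uu (n' + 1) k m δ < N := by omega
  have hNpos : 0 < N ^ n' := Nat.pow_pos (by omega)
  have h4 : (n' + 1) * B * N ^ n' * uu (n' + 1) k m δ < N ^ (n' + 1) := by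
    calc (n' + 1) * B * N ^ n' * uu (n' + 1) k m δ =
        ((n' + 1) * B * uu (n' + 1) k m δ) * N ^ n' := by ring
      _ < N * N ^ n' := Nat.mul_lt_mul_of_pos_right hN2 hNpos
      _ = N ^ (n' + 1) := by ring
  have h5 : N ^ (n' + 1) * Cs + N ^ (n' + 1) ≤ N ^ (n' + 1) * uu (n' + 1) k m δ := by
    calc N ^ (n' + 1) * Cs + N ^ (n' + 1) = N ^ (n' + 1) * (Cs + 1) := by ring
      _ ≤ _ := Nat.mul_le_mul_left _ hnum
  have h6 := Nat.mul_le_mul_right (uu (n' + 1) k m δ) hp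
  rw [add_mul] at h6
  omega

end Pool.Agent.PN.H27
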