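import Pool.Agent.Helper50_PN.Stmts

/-!
# Squad PN, module NUA: the inequality for the generating functions
-/

set_option autoImplicit false

namespace Pool.Agent.PN.H27

open PowerSeries

/-! ### Identities -/

theorem coeff_geo (j s : ℕ) : coeff s (geo j) = if j ∣ s then 1 else 0 := by
  unfold geo
  rw [coeff_mk]

theorem coeff_VV (s : ℕ) : coeff s VV = s := by
  unfold VV
  rw [coeff_mk]

theorem geo_one : geo 1 = mk 1 := by
  ext s
  rw [coeff_geo, coeff_mk, if_pos (one_dvd s), Pi.one_apply]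

theorem geo_one_pow (d : ℕ) : geo 1 ^ (d + 1) = mk fun n => (d + n).choose d := by
  rw [geo_one]
  induction d with
  | zero => ext; simp
  | succ d hd =>
      ext n
      rw [pow_add, hd, pow_one, mul_comm, coeff_mul]
      simp_rw [coeff_mk, Pi.one_apply, one_mul]
      rw [Finset.sum_antidiagonal_choose_add, add_right_comm]

theorem VV_eq : VV = X * geo 1 ^ 2 := by
  rw [geo_one_pow 1]
  ext s
  rw [coeff_VV]
  cases s with
  | zero => simp
  | succ s => rw [coeff_succ_X_mul, coeff_mk, Nat.choose_one_right, add_comm]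

theorem bin_eq (c : ℕ) (hc : 1 ≤ c) :
    (mk fun T => (T + c - 1).choose c : PowerSeries ℕ) = X * geo 1 ^ (c + 1) := by
  rw [geo_one_pow c]
  ext s
  rw [coeff_mk]
  cases s with
  | zero =>
    rw [coeff_zero_X_mul, zero_add]
    exact Nat.choose_eq_zero_of_lt (by omega)
  | succ s =>
    rw [coeff_succ_X_mul, coeff_mk]
    have h : s + 1 + c - 1 = c + s := by omega
    rw [h]

/-- the polynomial `1 + X + … + X ^ (k - 1)` -/
noncomputable def WW (k : ℕ) : PowerSeries ℕ := ∑ i ∈ Finset.range k, X ^ i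

theorem geo_eq (k : ℕ) (hk : 1 ≤ k) : geo 1 = WW k * geo k := by
  ext s
  rw [WW, Finset.sum_mul, map_sum, coeff_geo, if_pos (one_dvd s)]
  rw [Finset.sum_eq_single (s % k)]
  · rw [coeff_X_pow_mul', if_pos (Nat.mod_le s k), coeff_geo, if_pos (Nat.dvd_sub_mod s)]
  · intro i hi hne
    rw [Finset.mem_range] at hi
    rw [coeff_X_pow_mul']
    by_cases h : i ≤ s
    · rw [if_pos h, coeff_geo, if_neg]
      intro hd
      apply hne
      rw [← Nat.mod_eq_of_lt hi]
      exact (Nat.modEq_iff_dvd' h).mpr hd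
    · rw [if_neg h]
  · intro h
    exact absurd (Finset.mem_range.mpr (Nat.mod_lt s (by omega))) h

theorem key_eq (n k c : ℕ) (hk : 1 ≤ k) (hc : 1 ≤ c) (hcn : c ≤ n) :
    (X * WW k) ^ (c - 1) * CC n k c = UU n k := by
  obtain ⟨d, rfl⟩ : ∃ d, c = d + 1 := ⟨c - 1, by omega⟩
  obtain ⟨e, rfl⟩ : ∃ e, n = d + 1 + e := ⟨n - (d + 1), by omega⟩
  unfold CC UU
  rw [bin_eq _ hc, Nat.add_sub_cancel, Nat.add_sub_cancel_left, VV_eq]
  have h : geo 1 = WW k * geo k := geo_eq k hk
  have h2 : (X * WW k) ^ d * (X * geo 1 ^ (d + 1 + 1) * GG k * (GG k * geo k) ^ d *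
      (X * geo 1 ^ 2 * GG k) ^ e) = (X ^ (d + 1) * GG k ^ (d + 1) * geo 1 ^ (d + 1 + 1) *
      (WW k * geo k) ^ d) * (X * geo 1 ^ 2 * GG k) ^ e := by ring
  rw [h2, ← h]
  ring

/-! ### Coefficientwise order -/

/-- coefficientwise order -/
def Le (F G : PowerSeries ℕ) : Prop := ∀ s, coeff s F ≤ coeff s G

theorem Le.mul_left {F G : PowerSeries ℕ} (h : Le F G) (H : PowerSeries ℕ) :
    Le (H * F) (H * G) := by
  intro s
  rw [coeff_mul, coeff_mul]
  exact Finset.sum_le_sum fun p _ => Nat.mul_le_mul_left _ (h _)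

/-- increasing coefficients -/
def Mon (F : PowerSeries ℕ) : Prop := ∀ s t, s ≤ t → coeff s F ≤ coeff t F

theorem coeff_ZF (k : ℕ) (F : PowerSeries ℕ) (T : ℕ) : coeff T (X * WW k * F) =
    ∑ i ∈ Finset.range k, if i + 1 ≤ T then coeff (T - (i + 1)) F else 0 := by
  rw [WW, Finset.mul_sum, Finset.sum_mul, map_sum]
  refine Finset.sum_congr rfl fun i _ => ?_
  rw [← pow_succ', coeff_X_pow_mul']

theorem Mon.zf {F : PowerSeries ℕ} (h : Mon F) (k : ℕ) : Mon (X * WW k * F) := by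
  intro s t hst
  rw [coeff_ZF, coeff_ZF]
  refine Finset.sum_le_sum fun i _ => ?_
  by_cases h1 : i + 1 ≤ s
  · rw [if_pos h1, if_pos (h1.trans hst)]
    exact h _ _ (by omega)
  · rw [if_neg h1]
    exact Nat.zero_le _

theorem zf_le {F : PowerSeries ℕ} (h : Mon F) (k T : ℕ) :
    coeff T (X * WW k * F) ≤ k * coeff T F := by
  rw [coeff_ZF]
  refine (Finset.sum_le_card_nsmul _ _ (coeff T F) fun i _ => ?_).trans ?_
  · by_cases h1 : i + 1 ≤ T
    · rw [if_pos h1]
      exact h _ _ (by omega)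
    · rw [if_neg h1]
      exact Nat.zero_le _
  · rw [Finset.card_range, smul_eq_mul]

theorem le_zf {F : PowerSeries ℕ} (h : Mon F) (k T : ℕ) :
    k * coeff T F ≤ coeff (T + k) (X * WW k * F) := by
  rw [coeff_ZF]
  have h1 := Finset.card_nsmul_le_sum (Finset.range k)
    (fun i => if i + 1 ≤ T + k then coeff (T + k - (i + 1)) F else 0) (coeff T F) ?_
  · rw [Finset.card_range, smul_eq_mul] at h1
    exact h1
  · intro i hi
    rw [Finset.mem_range] at hi
    rw [if_pos (by omega)]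
    exact h _ _ (by omega)

theorem mon_pow {F : PowerSeries ℕ} (h : Mon F) (k p : ℕ) : Mon ((X * WW k) ^ p * F) := by
  induction p with
  | zero => rwa [pow_zero, one_mul]
  | succ p ih =>
    rw [pow_succ', mul_assoc (X * WW k)]
    exact ih.zf k

theorem pow_zf_le {F : PowerSeries ℕ} (h : Mon F) (k p T : ℕ) :
    coeff T ((X * WW k) ^ p * F) ≤ k ^ p * coeff T F := by
  induction p with
  | zero => rw [pow_zero, pow_zero, one_mul, one_mul]
  | succ p ih =>
    rw [pow_succ', mul_assoc (X * WW k), pow_succ', mul_assoc k]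
    exact (zf_le (mon_pow h k p) k T).trans (Nat.mul_le_mul_left _ ih)

theorem le_pow_zf {F : PowerSeries ℕ} (h : Mon F) (k p T : ℕ) :
    k ^ p * coeff T F ≤ coeff (T + p * k) ((X * WW k) ^ p * F) := by
  induction p with
  | zero => rw [pow_zero, pow_zero, one_mul, one_mul, zero_mul, add_zero]
  | succ p ih =>
    rw [pow_succ', mul_assoc k, pow_succ', mul_assoc (X * WW k)]
    refine (Nat.mul_le_mul_left k ih).trans ?_
    have h1 := le_zf (mon_pow h k p) k (T + p * k)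
    have h2 : T + (p + 1) * k = T + p * k + k := by ring
    rw [h2]
    exact h1

/-! ### Polynomial growth -/

/-- polynomial growth -/
def Pg (F : PowerSeries ℕ) : Prop := ∃ D : ℕ, ∀ T, coeff T F ≤ (T + 1) ^ D

theorem Pg.mul {F G : PowerSeries ℕ} (hF : Pg F) (hG : Pg G) : Pg (F * G) := by
  obtain ⟨D, hD⟩ := hF
  obtain ⟨E, hE⟩ := hG
  refine ⟨1 + (D + E), fun T => ?_⟩
  rw [coeff_mul]
  refine (Finset.sum_le_card_nsmul _ _ ((T + 1) ^ (D + E)) fun p hp => ?_).trans ?_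
  · have h := Finset.HasAntidiagonal.mem_antidiagonal.mp hp
    rw [pow_add]
    refine Nat.mul_le_mul ((hD p.1).trans ?_) ((hE p.2).trans ?_)
    · exact Nat.pow_le_pow_left (by omega) _
    · exact Nat.pow_le_pow_left (by omega) _
  · rw [Finset.Nat.card_antidiagonal, smul_eq_mul, pow_add _ 1, pow_one]

theorem pg_one : Pg 1 := by
  refine ⟨0, fun T => ?_⟩
  rw [pow_zero, coeff_one]
  split_ifs
  · exact le_rfl
  · exact Nat.zero_le _

theorem pg_prod {ι : Type*} (s : Finset ι) (f : ι → PowerSeries ℕ) (h : ∀ i ∈ s, Pg (f i)) :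
    Pg (∏ i ∈ s, f i) := by
  classical
  induction s using Finset.induction_on with
  | empty => rw [Finset.prod_empty]; exact pg_one
  | insert a s ha ih =>
    rw [Finset.prod_insert ha]
    exact (h a (Finset.mem_insert_self a s)).mul
      (ih fun i hi => h i (Finset.mem_insert_of_mem hi))

theorem Pg.pow {F : PowerSeries ℕ} (hF : Pg F) (n : ℕ) : Pg (F ^ n) := by
  have h := pg_prod (Finset.range n) (fun _ => F) fun _ _ => hF
  rwa [Finset.prod_const, Finset.card_range] at h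

theorem pg_geo (j : ℕ) : Pg (geo j) := by
  refine ⟨0, fun T => ?_⟩
  rw [pow_zero, coeff_geo]
  split_ifs
  · exact le_rfl
  · exact Nat.zero_le _

theorem pg_VV : Pg VV := by
  refine ⟨1, fun T => ?_⟩
  rw [coeff_VV, pow_one]
  exact Nat.le_succ T

theorem pg_UU (n k : ℕ) : Pg (UU n k) :=
  (pg_VV.mul (pg_prod _ _ fun _ _ => pg_geo _)).pow n

/-! ### Nonvanishing -/

theorem geo_ne (j : ℕ) : geo j ≠ 0 := by
  intro h
  have h1 := congrArg (coeff 0) h
  rw [coeff_geo, if_pos (dvd_zero j), map_zero] at h1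
  exact one_ne_zero h1

theorem VV_ne : VV ≠ 0 := by
  intro h
  have h1 := congrArg (coeff 1) h
  rw [coeff_VV, map_zero] at h1
  exact one_ne_zero h1

theorem UU_ne (n k : ℕ) : UU n k ≠ 0 := by
  unfold UU GG
  refine pow_ne_zero _ (mul_ne_zero VV_ne ?_)
  rw [Finset.prod_ne_zero_iff]
  exact fun _ _ => geo_ne _

/-! ### The growth argument -/

theorem growth (S : ℕ → ℕ) (α β L T₀ D : ℕ) (hab : β < α) (h0 : 1 ≤ S T₀)
    (hS : ∀ T, α * S T ≤ β * S (T + L)) (hD : ∀ T, S T ≤ (T + 1) ^ D) : False := by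
  have hit : ∀ j : ℕ, α ^ j * S T₀ ≤ β ^ j * S (T₀ + j * L) := by
    intro j
    induction j with
    | zero => rw [pow_zero, pow_zero, zero_mul, add_zero]
    | succ j ih =>
      have h1 := hS (T₀ + j * L)
      have h2 : T₀ + (j + 1) * L = T₀ + j * L + L := by ring
      rw [h2]
      calc α ^ (j + 1) * S T₀ = α * (α ^ j * S T₀) := by ring
        _ ≤ α * (β ^ j * S (T₀ + j * L)) := Nat.mul_le_mul_left _ ih
        _ = β ^ j * (α * S (T₀ + j * L)) := by ring
        _ ≤ β ^ j * (β * S (T₀ + j * L + L)) := Nat.mul_le_mul_left _ h1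
        _ = β ^ (j + 1) * S (T₀ + j * L + L) := by ring
  have hα : (0 : ℝ) < α := by exact_mod_cast Nat.lt_of_le_of_lt (Nat.zero_le β) hab
  obtain ⟨r, hr⟩ : ∃ r : ℝ, r = (β : ℝ) / α := ⟨_, rfl⟩
  have hr0 : 0 ≤ r := by rw [hr]; positivity
  have hr1 : r < 1 := by
    rw [hr, div_lt_one hα]
    exact_mod_cast hab
  have hlim := tendsto_pow_const_mul_const_pow_of_abs_lt_one D
    (r := r) (by rw [abs_of_nonneg hr0]; exact hr1)
  have hC : (0 : ℝ) < ((T₀ + L + 1 : ℕ) : ℝ) ^ D := by positivity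
  have hev := (hlim.eventually (gt_mem_nhds (inv_pos.mpr hC))).and (Filter.eventually_ge_atTop 1)
  obtain ⟨j, hj, hj1⟩ := hev.exists
  have h1 : α ^ j ≤ β ^ j * (j * (T₀ + L + 1)) ^ D := by
    calc α ^ j ≤ α ^ j * S T₀ := Nat.le_mul_of_pos_right _ h0
      _ ≤ β ^ j * S (T₀ + j * L) := hit j
      _ ≤ β ^ j * (T₀ + j * L + 1) ^ D := Nat.mul_le_mul_left _ (hD _)
      _ ≤ β ^ j * (j * (T₀ + L + 1)) ^ D := by
        refine Nat.mul_le_mul_left _ (Nat.pow_le_pow_left ?_ D)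
        have h3 : T₀ + 1 ≤ j * (T₀ + 1) := Nat.le_mul_of_pos_left _ hj1
        have h4 : j * (T₀ + L + 1) = j * (T₀ + 1) + j * L := by ring
        omega
  have h2 : (α : ℝ) ^ j ≤ (β : ℝ) ^ j * ((j : ℝ) ^ D * ((T₀ + L + 1 : ℕ) : ℝ) ^ D) := by
    rw [← mul_pow]
    exact_mod_cast h1
  have h3 : (1 : ℝ) ≤ ((j : ℝ) ^ D * r ^ j) * ((T₀ + L + 1 : ℕ) : ℝ) ^ D := by
    rw [hr, div_pow]
    have h4 : (0 : ℝ) < (α : ℝ) ^ j := pow_pos hα j
    rw [← mul_le_mul_iff_left₀ h4, one_mul]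
    refine h2.trans (le_of_eq ?_)
    field_simp
  have h5 := mul_lt_mul_of_pos_right hj hC
  rw [inv_mul_cancel₀ hC.ne'] at h5
  exact absurd h5 (not_lt.mpr h3)

theorem sum_choose_lt (n : ℕ) : ∑ c ∈ Finset.Icc 2 n, n.choose c < 2 ^ n := by
  rw [← Nat.sum_range_choose n]
  refine Finset.sum_lt_sum_of_subset (i := 0) ?_ ?_ ?_ ?_ ?_
  · intro c hc
    rw [Finset.mem_Icc] at hc
    rw [Finset.mem_range]
    omega
  · rw [Finset.mem_range]
    omega
  · rw [Finset.mem_Icc]
    omega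
  · rw [Nat.choose_zero_right]
    exact one_pos
  · intro _ _ _
    exact Nat.zero_le _

/-- NUA -/
theorem nua : NuaStmt := by
  intro n hn
  obtain ⟨k, hk⟩ : ∃ k, k = 2 ^ n := ⟨_, rfl⟩
  have hk1 : 1 ≤ k := by rw [hk]; exact Nat.one_le_two_pow
  by_contra hcon
  have hle : Le (UU n k) (∑ c ∈ Finset.Icc 2 n, n.choose c • CC n k c) := by
    intro s
    rw [map_sum]
    by_contra hs
    apply hcon
    refine ⟨k, s, hk1, ?_⟩
    rw [not_le] at hs
    refine lt_of_eq_of_lt (Finset.sum_congr rfl fun c _ => ?_) hs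
    rw [map_nsmul, smul_eq_mul]
  obtain ⟨S, hS⟩ : ∃ S, S = geo 1 * UU n k := ⟨_, rfl⟩
  have hmon : Mon S := by
    intro s t hst
    have h : ∀ s, coeff s S = ∑ i ∈ Finset.range (s + 1), coeff i (UU n k) := by
      intro s
      rw [hS, mul_comm, coeff_mul, Finset.Nat.sum_antidiagonal_eq_sum_range_succ_mk]
      refine Finset.sum_congr rfl fun i _ => ?_
      simp only
      rw [coeff_geo, if_pos (one_dvd _), mul_one]
    rw [h, h]
    refine Finset.sum_le_sum_of_subset ?_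
    intro i hi
    rw [Finset.mem_range] at hi ⊢
    omega
  have hle2 := (hle.mul_left (geo 1)).mul_left ((X * WW k) ^ (n - 1))
  have hle3 : ∀ T, coeff T ((X * WW k) ^ (n - 1) * S) ≤
      (∑ c ∈ Finset.Icc 2 n, n.choose c * k ^ (n - 2)) * coeff T S := by
    intro T
    have h0 := hle2 T
    rw [← hS] at h0
    refine h0.trans ?_
    have h1 : (X * WW k) ^ (n - 1) * (geo 1 * ∑ c ∈ Finset.Icc 2 n, n.choose c • CC n k c) =
        ∑ c ∈ Finset.Icc 2 n, n.choose c • ((X * WW k) ^ (n - c) * S) := by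
      rw [Finset.mul_sum, Finset.mul_sum]
      refine Finset.sum_congr rfl fun c hc => ?_
      rw [Finset.mem_Icc] at hc
      rw [mul_smul_comm, mul_smul_comm, hS, ← key_eq n k c hk1 (by omega) hc.2]
      have h2 : n - 1 = (n - c) + (c - 1) := by omega
      rw [h2, pow_add]
      ring
    rw [h1, map_sum, Finset.sum_mul]
    refine Finset.sum_le_sum fun c hc => ?_
    rw [Finset.mem_Icc] at hc
    rw [map_nsmul, smul_eq_mul, mul_assoc]
    refine Nat.mul_le_mul_left _ ((pow_zf_le hmon k (n - c) T).trans ?_)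
    exact Nat.mul_le_mul_right _ (Nat.pow_le_pow_right hk1 (by omega))
  obtain ⟨D, hD⟩ : Pg S := by rw [hS]; exact (pg_geo 1).mul (pg_UU n k)
  have hne : S ≠ 0 := by rw [hS]; exact mul_ne_zero (geo_ne 1) (UU_ne n k)
  obtain ⟨T₀, hT₀⟩ : ∃ T₀, coeff T₀ S ≠ 0 := by
    by_contra h
    apply hne
    ext T
    by_contra h'
    exact h ⟨T, h'⟩
  refine growth (fun T => coeff T S) (k ^ (n - 1))
    (∑ c ∈ Finset.Icc 2 n, n.choose c * k ^ (n - 2)) ((n - 1) * k) T₀ D ?_
    (Nat.one_le_iff_ne_zero.mpr hT₀) (fun T => ?_) hD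
  · rw [← Finset.sum_mul]
    have h1 : n - 1 = (n - 2) + 1 := by omega
    rw [h1, pow_succ']
    refine Nat.mul_lt_mul_of_pos_right ?_ (Nat.pow_pos hk1)
    rw [hk]
    exact sum_choose_lt n
  · exact (le_pow_zf hmon k (n - 1) T).trans (hle3 _)

end Pool.Agent.PN.H27
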